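import Pool.Agent.L7h83.GK.Stm

/-!
# Project GK, part GEN
-/

set_option autoImplicit false

namespace Pool.Agent.L7h36.GK

open Finset
open Pool.Agent.H126R2.CDC (T3 IsFl excess MGraph lab)
open Pool.Agent.Helper879.ECD (F2)
open Pool.Agent.L7h83.GK

lemma f2_eq {a b : F2} (ha : a ≠ 0) (hb : b ≠ 0) : a = b := by
  revert a b
  decide

lemma second {W E : Type} [Fintype W] [DecidableEq W] [Fintype E] [DecidableEq E]
    {v : E × Bool → W} {g : E → F2} (hg : IsFl v g) (h : E × Bool) (hh : g h.1 ≠ 0) :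
    ∃ h' : E × Bool, h' ≠ h ∧ v h' = v h ∧ g h'.1 ≠ 0 := by
  by_contra hcon
  push Not at hcon
  have h1 := hg (v h)
  rw [Finset.sum_eq_single h] at h1
  · rw [if_pos rfl] at h1
    exact hh h1
  · intro b _ hb
    by_cases hvb : v b = v h
    · rw [if_pos hvb]
      exact hcon b hb hvb
    · rw [if_neg hvb]
  · intro h2
    exact absurd (Finset.mem_univ _) h2

theorem s_GEN (hL : S_LOW) (h1 : S_ST1) (h2 : S_ST2) (h3 : S_ST3) : S_GEN := by
  have main : ∀ (n : ℕ) (W E : Type) [Fintype W] [DecidableEq W] [Fintype E] [DecidableEq E]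
      (v : E × Bool → W) (A : Fin 3 → E → F2) (R : E → Prop), excess v = n → Hyp v A R →
      Good v (A 0) R := by
    intro n
    induction n using Nat.strong_induction_on with
    | _ n ih =>
    intro W E _ _ _ _ v A R hn hyp
    by_cases hdeg : ∀ w, dg v w ≤ 3
    · exact hL W E v A R hdeg hyp
    push Not at hdeg
    obtain ⟨w0, hw0⟩ := hdeg
    have hred : Red v A R := by
      by_cases c1 : ∃ a b : E × Bool, a ≠ b ∧ v a = w0 ∧ v b = w0 ∧ A 0 a.1 = A 0 b.1 ∧
          ∃ i, A i a.1 ≠ A i b.1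
      · obtain ⟨a, b, hab, ha, hb, h0, hi⟩ := c1
        exact h1 W E v A R hyp a b hab (ha.trans hb.symm) (by rw [ha]; exact hw0) h0 hi
      push Not at c1
      by_cases c2 : ∃ a : E × Bool, v a = w0 ∧ A 0 a.1 ≠ 0
      · obtain ⟨a, ha, ha0⟩ := c2
        obtain ⟨b, hba, hvb, hb0⟩ := second (hyp.1 0) a ha0
        have e0 : A 0 a.1 = A 0 b.1 := f2_eq ha0 hb0
        exact h2 W E v A R hyp a b (Ne.symm hba) hvb.symm (by rw [ha]; exact hw0) ha0
          (c1 a b (Ne.symm hba) ha (hvb.trans ha) e0)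
      · push Not at c2
        have hc : 2 < (univ.filter (fun h => v h = w0)).card := by
          have : dg v w0 = (univ.filter (fun h => v h = w0)).card := rfl
          omega
        obtain ⟨a, ha, b, hb, c, hc', hab, hac, hbc⟩ := Finset.two_lt_card.1 hc
        rw [Finset.mem_filter] at ha hb hc'
        have ea := c2 a ha.2
        have eb := c2 b hb.2
        have ec := c2 c hc'.2
        refine h3 W E v A R hyp a b c hab hac hbc (ha.2.trans hb.2.symm) (ha.2.trans hc'.2.symm)
          (by rw [ha.2]; exact hw0) ea (fun i => ⟨?_, ?_⟩)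
        · exact c1 a b hab ha.2 hb.2 (by rw [ea, eb]) i
        · exact c1 a c hac ha.2 hc'.2 (by rw [ea, ec]) i
    obtain ⟨W', E', _, _, _, _, v', A', R', hyp', hlt, himp⟩ := hred
    exact himp (ih (excess v') (by omega) W' E' v' A' R' rfl hyp')
  intro W E _ _ _ _ v A R hyp
  exact main _ W E v A R rfl hyp

end Pool.Agent.L7h36.GK
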